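import Mathlib
import Pool.Agent.H958.RL.Stm
import Pool.Graph.R_seed8.W657.RD.PBas

/-!
# Project RL, LOWR: the lower part is good with high probability
-/

set_option autoImplicit false

namespace Pool.Agent.H549.RL.Lowr

open Finset Filter Topology
open scoped Classical
open Pool.Agent.W830.RD (Om gle Pr Rlz)
open Pool.Agent.H958.RL

theorem gle_mono {n : ℕ} {E E' : Finset (Fin n × Fin n)} (h : E ⊆ E') {x y : Fin n}
    (hg : gle E x y) : gle E' x y := by
  induction hg with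
  | refl => exact Relation.ReflTransGen.refl
  | tail _ h2 ih => exact Relation.ReflTransGen.tail ih (h h2)

theorem seg_mono {n : ℕ} {E E' : Finset (Fin n × Fin n)} (h : E ⊆ E') {s t s' t' : ℕ}
    (hs : s' ≤ s) (ht : t ≤ t') : seg E s t ⊆ seg E' s' t' := by
  intro e he
  unfold seg at he ⊢
  rw [mem_filter] at he ⊢
  exact ⟨h he.1, hs.trans he.2.1, lt_of_lt_of_le he.2.2 ht⟩

/-- The set of possible edges with upper endpoint at least `z`. -/
noncomputable def SS (n z : ℕ) : Finset (Fin n × Fin n) :=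
  (Om n).filter (fun e => z ≤ (e.2 : ℕ))

theorem seg_lo {n : ℕ} (E : Finset (Fin n × Fin n)) (z : ℕ) :
    seg (E \ SS n z) 0 z = seg E 0 z := by
  unfold seg SS
  ext e
  simp only [mem_filter, Finset.mem_sdiff]
  constructor
  · rintro ⟨⟨h1, _⟩, h3⟩
    exact ⟨h1, h3⟩
  · rintro ⟨h1, h2, h3⟩
    refine ⟨⟨h1, ?_⟩, h2, h3⟩
    rintro ⟨_, h4⟩
    omega

theorem seg_hi {n : ℕ} {E : Finset (Fin n × Fin n)} (hE : E ⊆ Om n) (z t : ℕ) :
    seg (E ∩ SS n z) z t = seg E z t := by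
  unfold seg SS
  ext e
  simp only [mem_filter, mem_inter]
  constructor
  · rintro ⟨⟨h1, _⟩, h3⟩
    exact ⟨h1, h3⟩
  · rintro ⟨h1, h2, h3⟩
    exact ⟨⟨h1, hE h1, h2⟩, h2, h3⟩

theorem wr_hi {n : ℕ} {E : Finset (Fin n × Fin n)} (hE : E ⊆ Om n) (F : Finset (Fin n))
    (z t : ℕ) : Wr (E ∩ SS n z) F z t = Wr E F z t := by
  unfold Wr
  rw [seg_hi hE]

theorem stg_lo {n : ℕ} (E : Finset (Fin n × Fin n)) (a d φ : ℕ) :
    Stg (E \ SS n (a + 2 * d)) a d φ ↔ Stg E a d φ := by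
  unfold Stg
  rw [seg_lo]

theorem card_low {n : ℕ} (a : ℕ) :
    (univ.filter (fun x : Fin n => (x : ℕ) < a)).card ≤ a := by
  have h : ((univ.filter (fun x : Fin n => (x : ℕ) < a)).image (fun x : Fin n => (x : ℕ))).card =
      (univ.filter (fun x : Fin n => (x : ℕ) < a)).card :=
    Finset.card_image_of_injective _ Fin.val_injective
  rw [← h]
  calc _ ≤ (Finset.range a).card := by
        apply Finset.card_le_card
        intro y hy
        rw [mem_image] at hy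
        obtain ⟨x, hx, rfl⟩ := hy
        rw [mem_filter] at hx
        exact Finset.mem_range.2 hx.2
    _ = a := Finset.card_range a

theorem wr_sub {n : ℕ} {E : Finset (Fin n × Fin n)} {X : Finset (Fin n)}
    {Ff : Fin n → Finset (Fin n)} {z t h : ℕ} (hz : z ≤ h) (ht : t ≤ h)
    (hF : ∀ x ∈ X, ∀ v ∈ Ff x, gle (seg E 0 z) x v) :
    Wr E (X.biUnion Ff) z t ⊆ Wr E X 0 h := by
  intro v hv
  unfold Wr at hv ⊢
  rw [mem_filter] at hv ⊢
  obtain ⟨_, u, hu, huv⟩ := hv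
  rw [mem_biUnion] at hu
  obtain ⟨x, hx, hux⟩ := hu
  refine ⟨mem_univ _, x, hx, ?_⟩
  have h1 : gle (seg E 0 h) x u :=
    gle_mono (seg_mono (Finset.Subset.refl E) le_rfl hz) (hF x hx u hux)
  have h2 : gle (seg E 0 h) u v :=
    gle_mono (seg_mono (Finset.Subset.refl E) (Nat.zero_le z) ht) huv
  exact Relation.ReflTransGen.trans h1 h2

theorem main (h1 : S_COND) (h2 : S_GROW) : S_LOWR := by
  intro p η n a d φ b N L J h hp hp1 hη hη2 hb hφ hh hhn hpη hN
  obtain ⟨hT, hnn, hmono, hor, hnot, hex⟩ := Pool.Agent.W657.RD.PBas.main p n hp hp1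
  set z : ℕ := a + 2 * d with hz
  set f : ℝ := ((b * φ : ℕ) : ℝ) with hf
  set g : ℝ := 1 + (1 - 2 * η) * (L * p) with hg
  set e0 : ℝ := J * Real.exp (-(η ^ 2 * (L * p * f) / 4)) with he0
  have he0n : 0 ≤ e0 := mul_nonneg (Nat.cast_nonneg _) (Real.exp_pos _).le
  have hfpos : 0 < f := by
    rw [hf]
    exact_mod_cast Nat.mul_pos hb hφ
  have hchoice : ∀ E1 : Finset (Fin n × Fin n), ∃ (A : Finset (Fin n))
      (Ff : Fin n → Finset (Fin n)), Stg E1 a d φ → ((∀ x ∈ A, (x : ℕ) < a) ∧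
      a ≤ 2 * A.card ∧ (∀ x ∈ A, φ ≤ (Ff x).card) ∧
      (∀ x ∈ A, ∀ y ∈ A, x ≠ y → Disjoint (Ff x) (Ff y)) ∧
      (∀ x ∈ A, ∀ v ∈ Ff x, (v : ℕ) < a + 2 * d ∧ gle (seg E1 0 (a + 2 * d)) x v)) := by
    intro E1
    by_cases hs : Stg E1 a d φ
    · obtain ⟨A, Ff, hA⟩ := hs
      exact ⟨A, Ff, fun _ => hA⟩
    · exact ⟨∅, fun _ => ∅, fun hc => absurd hc hs⟩
  choose A Ff hAF using hchoice
  set P : Finset (Finset (Fin n)) :=
    (univ.filter (fun x : Fin n => (x : ℕ) < a)).powersetCard b with hP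
  have hPc : (P.card : ℝ) ≤ (a.choose b : ℝ) := by
    rw [hP, card_powersetCard]
    exact_mod_cast Nat.choose_le_choose b (card_low a)
  let Q : Finset (Fin n × Fin n) → Finset (Fin n × Fin n) → Prop := fun E1 E2 =>
    ∃ X ∈ P, Stg E1 a d φ ∧ X ⊆ A E1 ∧
      ((Wr E2 (X.biUnion (Ff E1)) z (z + J * L)).card : ℝ) < f * g ^ J
  have hQ : Pr p n (fun E => Q (E \ SS n z) (E ∩ SS n z)) ≤ (a.choose b : ℝ) * e0 := by
    apply h1 p ((a.choose b : ℝ) * e0) n (SS n z) Q hp hp1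
    intro E1 _
    have hx1 : Pr p n (fun E => Q E1 (E ∩ SS n z)) ≤
        ∑ X ∈ P, Pr p n (fun E => Stg E1 a d φ ∧ X ⊆ A E1 ∧
          ((Wr (E ∩ SS n z) (X.biUnion (Ff E1)) z (z + J * L)).card : ℝ) < f * g ^ J) :=
      hex (Finset (Fin n)) P (fun X E => Stg E1 a d φ ∧ X ⊆ A E1 ∧
          ((Wr (E ∩ SS n z) (X.biUnion (Ff E1)) z (z + J * L)).card : ℝ) < f * g ^ J)
    have hx2 : ∀ X ∈ P, Pr p n (fun E => Stg E1 a d φ ∧ X ⊆ A E1 ∧
          ((Wr (E ∩ SS n z) (X.biUnion (Ff E1)) z (z + J * L)).card : ℝ) < f * g ^ J) ≤ e0 := by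
      intro X hX
      by_cases hc : Stg E1 a d φ ∧ X ⊆ A E1
      · obtain ⟨hc1, hc2⟩ := hc
        obtain ⟨ha1, ha2, ha3, ha4, ha5⟩ := hAF E1 hc1
        have hXc : X.card = b := (mem_powersetCard.1 hX).2
        have hcard : b * φ ≤ (X.biUnion (Ff E1)).card := by
          rw [Finset.card_biUnion (fun x hx y hy hxy => ha4 x (hc2 hx) y (hc2 hy) hxy)]
          calc b * φ = ∑ _x ∈ X, φ := by rw [Finset.sum_const, hXc, smul_eq_mul]
            _ ≤ ∑ x ∈ X, (Ff E1 x).card := Finset.sum_le_sum (fun x hx => ha3 x (hc2 hx))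
        have hgrow := h2 p f η n z L J (X.biUnion (Ff E1)) hp hp1 hfpos hη hη2
          (by rw [hf]; exact_mod_cast hcard)
          (by
            intro u hu
            rw [mem_biUnion] at hu
            obtain ⟨x, hx, hux⟩ := hu
            exact (ha5 x (hc2 hx) u hux).1)
          (by omega) hpη
        refine le_trans ?_ hgrow
        apply hmono
        rintro E hE ⟨_, _, hlt⟩
        rw [wr_hi hE] at hlt
        exact hlt
      · have : Pr p n (fun E => Stg E1 a d φ ∧ X ⊆ A E1 ∧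
            ((Wr (E ∩ SS n z) (X.biUnion (Ff E1)) z (z + J * L)).card : ℝ) < f * g ^ J) ≤
            Pr p n (fun _ => ¬ True) := by
          apply hmono
          rintro E _ ⟨hc1, hc2, _⟩
          exact absurd ⟨hc1, hc2⟩ hc
        rw [hnot (fun _ => True), hT, sub_self] at this
        exact this.trans he0n
    calc Pr p n (fun E => Q E1 (E ∩ SS n z)) ≤ _ := hx1
      _ ≤ ∑ _X ∈ P, e0 := Finset.sum_le_sum hx2
      _ = P.card * e0 := by rw [Finset.sum_const, nsmul_eq_mul]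
      _ ≤ (a.choose b : ℝ) * e0 := mul_le_mul_of_nonneg_right hPc he0n
  have hincl : Pr p n (fun E => ¬ Lo E a b N h) ≤
      Pr p n (fun E => ¬ Stg E a d φ ∨ Q (E \ SS n z) (E ∩ SS n z)) := by
    apply hmono
    intro E hE hLo
    by_contra hcon
    rw [not_or, not_not] at hcon
    obtain ⟨hS, hQn⟩ := hcon
    apply hLo
    have hS' : Stg (E \ SS n z) a d φ := (stg_lo E a d φ).2 hS
    obtain ⟨ha1, ha2, ha3, ha4, ha5⟩ := hAF (E \ SS n z) hS'
    refine ⟨A (E \ SS n z), ha1, ha2, ?_⟩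
    intro X hX hXb
    have hXP : X ∈ P := by
      rw [hP, mem_powersetCard]
      refine ⟨?_, hXb⟩
      intro x hx
      rw [mem_filter]
      exact ⟨mem_univ _, ha1 x (hX hx)⟩
    have hlt : ¬ ((Wr (E ∩ SS n z) (X.biUnion (Ff (E \ SS n z))) z (z + J * L)).card : ℝ) <
        f * g ^ J := fun hc => hQn ⟨X, hXP, hS', hX, hc⟩
    rw [wr_hi hE, not_lt] at hlt
    have hN2 : N ≤ (Wr E (X.biUnion (Ff (E \ SS n z))) z (z + J * L)).card := by
      exact_mod_cast hN.trans hlt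
    refine hN2.trans (Finset.card_le_card ?_)
    apply wr_sub (by omega) hh
    intro x hx v hv
    have := (ha5 x (hX hx) v hv).2
    rw [← hz, seg_lo] at this
    exact this
  calc Pr p n (fun E => ¬ Lo E a b N h) ≤ _ := hincl
    _ ≤ Pr p n (fun E => ¬ Stg E a d φ) + Pr p n (fun E => Q (E \ SS n z) (E ∩ SS n z)) :=
        hor _ _
    _ ≤ Pr p n (fun E => ¬ Stg E a d φ) + (a.choose b : ℝ) * e0 := by linarith

end Pool.Agent.H549.RL.Lowr
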